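import Pool.Agent.H95.NV.Targets4
import Pool.Agent.H95.NV.Lib

/-!
# NVK, part A: (EXX), few exceptional discriminants (helper82)
-/

set_option autoImplicit false

open MeasureTheory Set Filter NumberField
open scoped Real nonZeroDivisors

namespace Pool.Agent.H82.NV

open Pool.Agent.H95.NV
open Pool.Agent.H65.CM4 (Pl rv nm dk dg V2 Fo)
open Pool.Agent.H61.NVK (ci cr)
open Pool.Agent.H89.NV (PrI np nS idS ni q4 Dis Fnd good bD Rs CK em tp sd TrK prp PM qN dR kf GW T_CNT)

theorem dis_mem' {k : Type} [Field k] [NumberField k] {f : Ideal (𝓞 k)} {D : 𝓞 k}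
    (h : Dis f D) : D ∈ f ^ 2 := by
  obtain ⟨b, hb, h1⟩ := h
  have h2 : b ^ 2 + D ∈ f ^ 2 := Ideal.mul_le_right h1
  have h3 : b ^ 2 ∈ f ^ 2 := Ideal.pow_mem_pow hb 2
  have h4 : D = (b ^ 2 + D) - b ^ 2 := by ring
  rw [h4]
  exact Ideal.sub_mem _ h2 h3

theorem tp_ne {k : Type} [Field k] [NumberField k] [IsTotallyReal k] {D : 𝓞 k} (h : tp D) :
    D ≠ 0 := by
  rintro rfl
  obtain ⟨v⟩ : Nonempty (Pl k) := inferInstance
  have h1 := h v
  have h2 : em (0 : 𝓞 k) v = 0 := by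
    unfold Pool.Agent.H89.NV.em
    simp
  have h3 : (0 : ℝ) < em (0 : 𝓞 k) v := h1
  rw [h2] at h3
  exact lt_irrefl _ h3

open Classical in
theorem part (hNSE : T_NSE) (hFSP : T_FSP) (k : Type) [Field k] [NumberField k] [IsTotallyReal k]
    (hCNT : T_CNT k) (Ψ : (Pl k → ℝ) → ℝ) (hΨ : PU k Ψ) (w : ℝ → ℝ) (hw : SW w)
    (E : 𝓞 k → Prop) (hE : ∀ m : ℕ, ∃ Q : Finset (PrI k × PrI k), Q.card = m ∧ Prs Q ∧
      ∀ (f : Ideal (𝓞 k)) (D : 𝓞 k), f ≠ ⊥ → D ≠ 0 → D ∈ f ^ 2 → E D →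
        ∀ P ∈ Q, ¬ evt f P D) (ε : ℝ) (hε : 0 < ε) :
    ∃ X₀ : ℝ, ∀ X : ℝ, X₀ ≤ X →
      ∑' x : ClassGroup (𝓞 k) × 𝓞 k, (if E x.2 then
        mul k Ψ x * w (dsz k (ci x.1) x.2 / X) else 0) ≤ ε * X := by
  obtain ⟨α, hα, hsupp⟩ := hw.supp
  obtain ⟨η, hG⟩ := hΨ.gw w α hα hw.smooth hsupp
  have hG0 : ∀ u : Pl k → ℝ, 0 ≤ w (∏ v, u v) * Ψ u :=
    fun u => mul_nonneg (hw.nonneg _) (hΨ.unit u).1
  have hV : 0 < ∫ u : Pl k → ℝ, w (∏ v, u v) * Ψ u := G_pos hΨ hw hG
  set V := ∫ u : Pl k → ℝ, w (∏ v, u v) * Ψ u with hVdef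
  have hdk := dkp (k := k)
  have hsq : 0 < Real.sqrt (dk k) := Real.sqrt_pos.2 hdk
  set κ : ℝ := 1 / (Real.sqrt (dk k) * (dk k : ℝ) ^ 2) with hκ
  have hκ0 : 0 < κ := by positivity
  set h : ℝ := (Fintype.card (ClassGroup (𝓞 k)) : ℝ) with hh
  have hh0 : 0 < h := by
    rw [hh]
    exact_mod_cast Fintype.card_pos
  set B : ℝ := ∑ c : ClassGroup (𝓞 k), nm (ci c) ^ 2 / (dk k : ℝ) ^ 2 with hB
  have hB0 : 0 < B := by
    refine Finset.sum_pos (fun c _ => ?_) Finset.univ_nonempty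
    have := nmp (ci_ne c)
    positivity
  obtain ⟨m, hm⟩ := exists_pow_lt_of_lt_one (show 0 < ε / 2 / (h * κ * V) by positivity)
    (show (8 / 9 : ℝ) < 1 by norm_num)
  obtain ⟨Q, hQc, hQ, hQE⟩ := hE m
  choose q hq0 hq1 hq2 using fun c : ClassGroup (𝓞 k) => hNSE k (ci c) Q (ci_ne c) hQ
  choose T₁ hT₁ using fun c : ClassGroup (𝓞 k) =>
    hCNT (ci c) (q c) _ η 1 (ε / 2 / B) (ci_ne c) (hq0 c) hG (by positivity)
  have hev : ∀ᶠ X in atTop, ∀ c : ClassGroup (𝓞 k), T₁ c ≤ Tf k (ci c) X :=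
    Filter.eventually_all.2 fun c => (Tf_tendsto (ci_ne c)).eventually_ge_atTop _
  obtain ⟨X₀, hX₀⟩ := Filter.eventually_atTop.1 hev
  refine ⟨max X₀ 1, fun X hX => ?_⟩
  have hX0 : 0 < X := lt_of_lt_of_le one_pos (le_trans (le_max_right _ _) hX)
  have hTT := hX₀ X (le_trans (le_max_left _ _) hX)
  have s1 := fsup hFSP hΨ hsupp hX0
    (fun x => if E x.2 then mul k Ψ x * w (dsz k (ci x.1) x.2 / X) else 0)
    (fun x hx => by
      split_ifs at hx with h1
      · exact hx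
      · exact absurd rfl hx)
  rw [tsum_cl _ s1]
  have e : ∀ c : ClassGroup (𝓞 k), ∑' D : 𝓞 k, (if E D then
        mul k Ψ (c, D) * w (dsz k (ci c) D / X) else 0) ≤
        κ * X * V * (8 / 9) ^ m + ε / 2 / B * (X * (nm (ci c) ^ 2 / (dk k : ℝ) ^ 2)) := by
    intro c
    have hnq : 0 < nm (q c) := nmp (hq0 c)
    have h1 := hT₁ c (Tf k (ci c) X) (hTT c)
      (fun D => if ∀ P ∈ Q, ¬ evt (ci c) P D then 1 else 0)
      (fun D => by
        split_ifs
        · norm_num
        · norm_num)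
      (fun D y hy => by
        have h2 : (∀ P ∈ Q, ¬ evt (ci c) P (D + y)) ↔ ∀ P ∈ Q, ¬ evt (ci c) P D :=
          forall₂_congr fun P hP => not_congr (hq1 c P hP D y hy)
        simp only [h2])
    have h2 := (abs_le.1 h1).2
    have hcard : ∑ x ∈ (Rs (q c * ci c ^ 2)).filter (fun x => x ∈ ci c ^ 2),
        (if ∀ P ∈ Q, ¬ evt (ci c) P x then (1 : ℝ) else 0) ≤ (8 / 9) ^ m * nm (q c) := by
      have h3 := hq2 c
      rw [hQc] at h3
      refine le_trans (le_of_eq ?_) h3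
      rw [← Finset.sum_filter, Finset.filter_filter, Finset.sum_const, nsmul_eq_mul, mul_one]
    have hmean : (∑ x ∈ (Rs (q c * ci c ^ 2)).filter (fun x => x ∈ ci c ^ 2),
        (if ∀ P ∈ Q, ¬ evt (ci c) P x then (1 : ℝ) else 0)) / nm (q c) ≤ (8 / 9) ^ m := by
      rw [div_le_iff₀ hnq]
      exact hcard
    rw [mul_comm (kf (ci c)) _, kf_eq (ci_ne c) hX0, Tf_pow (ci_ne c) hX0] at h2
    have hT := Tf_pos (ci_ne c) hX0
    have f2 := gw_fin hG hT
    have h3 : ∑' D : 𝓞 k, (if E D then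
        mul k Ψ (c, D) * w (dsz k (ci c) D / X) else 0) ≤
        ∑' D : 𝓞 k, if D ∈ ci c ^ 2 then (if ∀ P ∈ Q, ¬ evt (ci c) P D then (1 : ℝ) else 0) *
          (fun u : Pl k → ℝ => w (∏ v, u v) * Ψ u) (fun v => em D v / Tf k (ci c) X) else 0 := by
      refine Summable.tsum_le_tsum (fun D => ?_) ?_ ?_
      · have hnn : 0 ≤ (if D ∈ ci c ^ 2 then
            (if ∀ P ∈ Q, ¬ evt (ci c) P D then (1 : ℝ) else 0) *
            (fun u : Pl k → ℝ => w (∏ v, u v) * Ψ u) (fun v => em D v / Tf k (ci c) X) else 0) := by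
          split_ifs
          · rw [one_mul]
            exact hG0 _
          · rw [zero_mul]
          · exact le_refl _
        by_cases h6 : E D ∧ mul k Ψ (c, D) * w (dsz k (ci c) D / X) ≠ 0
        · have h7 := h6.2
          rw [← mul_term hΨ hG hX0 c D] at h7
          by_cases h4 : Fnd (ci c) D
          · rw [if_pos h4] at h7
            have h8 : D ≠ 0 := tp_ne (gw_tp hG hT h7)
            have h9 := dis_mem' h4.1
            rw [if_pos h6.1, if_pos h9, if_pos (hQE (ci c) D (ci_ne c) h8 h9 h6.1), one_mul,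
              ← mul_term hΨ hG hX0 c D, if_pos h4]
          · rw [if_neg h4] at h7
            exact absurd rfl h7
        · have h7 : (if E D then mul k Ψ (c, D) * w (dsz k (ci c) D / X) else 0) = 0 := by
            by_cases h8 : E D
            · rw [if_pos h8]
              by_contra h9
              exact h6 ⟨h8, h9⟩
            · rw [if_neg h8]
          rw [h7]
          exact hnn
      · refine summable_of_hasFiniteSupport (f2.subset fun D hD => ?_)
        have h5 : (if E D then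
          mul k Ψ (c, D) * w (dsz k (ci c) D / X) else 0) ≠ 0 := hD
        split_ifs at h5 with h7
        · rw [← mul_term hΨ hG hX0 c D] at h5
          split_ifs at h5 with h6
          · exact h5
          · exact absurd rfl h5
        · exact absurd rfl h5
      · refine summable_of_hasFiniteSupport (f2.subset fun D hD => ?_)
        have h5 : (if D ∈ ci c ^ 2 then (if ∀ P ∈ Q, ¬ evt (ci c) P D then (1 : ℝ) else 0) *
          (fun u : Pl k → ℝ => w (∏ v, u v) * Ψ u) (fun v => em D v / Tf k (ci c) X) else 0) ≠ 0 :=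
          hD
        split_ifs at h5 with h6
        · exact right_ne_zero_of_mul h5
        · exact absurd (zero_mul _) h5
        · exact absurd rfl h5
    have h4 : X * nm (ci c) ^ 2 / (dk k : ℝ) ^ 2 = X * (nm (ci c) ^ 2 / (dk k : ℝ) ^ 2) := by
      ring
    rw [h4] at h2
    have h5 := mul_le_mul_of_nonneg_left hmean (show 0 ≤ κ * X * V by positivity)
    refine le_trans h3 ?_
    linarith [h2, h5]
  calc ∑ c : ClassGroup (𝓞 k), ∑' D : 𝓞 k, (if E D then
        mul k Ψ (c, D) * w (dsz k (ci c) D / X) else 0)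
      ≤ ∑ c : ClassGroup (𝓞 k),
        (κ * X * V * (8 / 9) ^ m + ε / 2 / B * (X * (nm (ci c) ^ 2 / (dk k : ℝ) ^ 2))) :=
        Finset.sum_le_sum fun c _ => e c
    _ = (h * κ * V) * (8 / 9) ^ m * X + ε / 2 * X := by
        rw [Finset.sum_add_distrib, Finset.sum_const, Finset.card_univ, nsmul_eq_mul,
          ← Finset.mul_sum, ← Finset.mul_sum, ← hB]
        have : ε / 2 / B * (X * B) = ε / 2 * X := by
          field_simp
        rw [this]
        simp only [hh]
        ring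
    _ ≤ ε * X := by
        have h6 := hm.le
        rw [le_div_iff₀ (by positivity)] at h6
        nlinarith [mul_le_mul_of_nonneg_right h6 hX0.le]

theorem pf_EXX (hEPP : T_EPP) (hNSE : T_NSE) (hFSP : T_FSP) : T_EXX := by
  classical
  intro k _ _ _ hCNT Ψ hΨ w hw ε hε
  obtain ⟨α, hα, hsupp⟩ := hw.supp
  set ι := {p : (k →+* ℂ) × (k →+* ℂ) // p.1 ≠ p.2} with hι
  have hfin : Finite ι := inferInstance
  have := Fintype.ofFinite ι
  set Ep : ι → 𝓞 k → Prop := fun p D => ∃ m ∈ Subfield.closure (Set.range p.1.1 ∪ Set.range p.1.2),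
    p.1.1 (D : k) * p.1.2 (D : k) = m ^ 2 with hEp
  set N : ℝ := (Fintype.card ι : ℝ) + 1 with hN
  have hN0 : 0 < N := by positivity
  choose X₀ hX₀ using fun p : ι => part hNSE hFSP k hCNT Ψ hΨ w hw (Ep p)
    (fun m => hEPP k p.1.1 p.1.2 p.2 m) (ε / N) (by positivity)
  refine ⟨max (∑ p, |X₀ p|) 1, fun X hX => ?_⟩
  have hX0 : 0 < X := lt_of_lt_of_le one_pos (le_trans (le_max_right _ _) hX)
  have hXp : ∀ p, X₀ p ≤ X := fun p =>
    le_trans (le_trans (le_abs_self _) (Finset.single_le_sum (fun i _ => abs_nonneg (X₀ i))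
      (Finset.mem_univ p))) (le_trans (le_max_left _ _) hX)
  set a : ClassGroup (𝓞 k) × 𝓞 k → ℝ := fun x => mul k Ψ x * w (dsz k (ci x.1) x.2 / X) with ha
  have ha0 : ∀ x, 0 ≤ a x := fun x => mul_nonneg ((hFSP k Ψ hΨ).1 x).1 (hw.nonneg _)
  have hsm : ∀ E : ClassGroup (𝓞 k) × 𝓞 k → Prop, Summable (fun x => if E x then a x else 0) := by
    intro E
    refine summable_of_hasFiniteSupport (fsup hFSP hΨ hsupp hX0 _ (fun x hx => ?_))
    split_ifs at hx with h1
    · exact hx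
    · exact absurd rfl hx
  calc ∑' x : ClassGroup (𝓞 k) × 𝓞 k, (if exc k x.2 then a x else 0)
      ≤ ∑' x : ClassGroup (𝓞 k) × 𝓞 k, ∑ p : ι, (if Ep p x.2 then a x else 0) := by
        refine Summable.tsum_le_tsum (fun x => ?_) (hsm _)
          (summable_sum fun p _ => hsm (fun x => Ep p x.2))
        by_cases h : exc k x.2
        · rw [if_pos h]
          obtain ⟨σ, τ, hστ, hm⟩ := h
          have h2 : Ep ⟨(σ, τ), hστ⟩ x.2 := hm
          calc a x = (if Ep ⟨(σ, τ), hστ⟩ x.2 then a x else 0) := by rw [if_pos h2]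
            _ ≤ _ := Finset.single_le_sum (f := fun p : ι => if Ep p x.2 then a x else 0)
                (fun p _ => by
                  split_ifs
                  · exact ha0 x
                  · exact le_refl _) (Finset.mem_univ (⟨(σ, τ), hστ⟩ : ι))
        · rw [if_neg h]
          refine Finset.sum_nonneg fun p _ => ?_
          split_ifs
          · exact ha0 x
          · exact le_refl _
    _ = ∑ p : ι, ∑' x : ClassGroup (𝓞 k) × 𝓞 k, (if Ep p x.2 then a x else 0) :=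
        Summable.tsum_finsetSum fun p _ => hsm (fun x => Ep p x.2)
    _ ≤ ∑ p : ι, ε / N * X := Finset.sum_le_sum fun p _ => hX₀ p X (hXp p)
    _ = (Fintype.card ι : ℝ) / N * (ε * X) := by
        rw [Finset.sum_const, Finset.card_univ, nsmul_eq_mul]
        ring
    _ ≤ 1 * (ε * X) := by
        refine mul_le_mul_of_nonneg_right ?_ (by positivity)
        rw [div_le_one hN0, hN]
        linarith
    _ = ε * X := one_mul _

end Pool.Agent.H82.NV
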